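import Pool.Agent.MWS.StmtsA

/-!
# Row DGN of squad MWS (MP_23468a_al)
-/

set_option autoImplicit false

namespace Pool.Agent.MWS.H92

open Pool.Agent.Helper14_MV Pool.Agent.Helper2_MV Pool.Agent.MVO Pool.Agent.MWL Pool.Agent.MWS

/-- a comparison on lists is a comparison of congruences -/
theorem le_of_RR {θ κ : FIC} (h : ∀ u v : List ℕ, RR θ u v → RR κ u v) : θ ≤ κ := by
  intro a b hab
  have h1 := h a.toList b.toList (by
    show θ.r (FreeMonoid.ofList a.toList) (FreeMonoid.ofList b.toList)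
    rw [FreeMonoid.ofList_toList, FreeMonoid.ofList_toList]
    exact hab)
  have h2 : κ.r (FreeMonoid.ofList a.toList) (FreeMonoid.ofList b.toList) := h1
  rw [FreeMonoid.ofList_toList, FreeMonoid.ofList_toList] at h2
  exact h2

/-- **Row DGN** -/
theorem dgn (h1 : CapStmt) (h2 : CmmStmt) (h3 : CmpStmt) : DgnStmt := by
  intro β hβ hN ρ σ τ hρ hσ hτ u v huv ht
  have hI1 : RR (FIC.inf ρ τ) u v → RR (psi ρ σ τ) u v := fun h => FIC.le_sup_left _ _ _ _ h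
  have hI2 : RR (FIC.inf σ τ) u v → RR (psi ρ σ τ) u v := fun h => FIC.le_sup_right _ _ _ _ h
  have key : ∀ θ κ : FIC, β ≤ θ → β ≤ κ → NC2 θ → ¬ NC2 κ → θ ≤ κ := by
    intro θ κ hθ hκ hn hk
    exact le_of_RR fun a b hab => h2 β κ hβ hκ hk a b (h1 β θ hβ hθ hn a b hab)
  by_cases hT : NC2 τ
  · by_cases hR : NC2 ρ
    · by_cases hS : NC2 σ
      · exact hN ρ σ τ hρ hσ hτ hR hS hT u v huv ht
      · exact hI2 ⟨key τ σ hτ hσ hT hS _ _ ht, ht⟩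
    · exact hI1 ⟨key τ ρ hτ hρ hT hR _ _ ht, ht⟩
  · by_cases hR : NC2 ρ
    · by_cases hS : NC2 σ
      · have h4 : ρ ≤ psi ρ σ τ :=
          FIC.le_trans' (FIC.le_inf (FIC.le_refl' ρ) (key ρ τ hρ hτ hR hT)) (FIC.le_sup_left _ _)
        have h5 : σ ≤ psi ρ σ τ :=
          FIC.le_trans' (FIC.le_inf (FIC.le_refl' σ) (key σ τ hσ hτ hS hT)) (FIC.le_sup_right _ _)
        exact FIC.sup_le h4 h5 _ _ huv
      · have h4 : FIC.sup ρ σ ≤ σ := FIC.sup_le (key ρ σ hρ hσ hR hS) (FIC.le_refl' σ)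
        exact hI2 ⟨h4 _ _ huv, ht⟩
    · by_cases hS : NC2 σ
      · have h4 : FIC.sup ρ σ ≤ ρ := FIC.sup_le (FIC.le_refl' ρ) (key σ ρ hσ hρ hS hR)
        exact hI1 ⟨h4 _ _ huv, ht⟩
      · rcases h3 β ρ σ hβ hρ hσ hR hS with h | h
        · have h4 : FIC.sup ρ σ ≤ σ := FIC.sup_le h (FIC.le_refl' σ)
          exact hI2 ⟨h4 _ _ huv, ht⟩
        · have h4 : FIC.sup ρ σ ≤ ρ := FIC.sup_le (FIC.le_refl' ρ) h
          exact hI1 ⟨h4 _ _ huv, ht⟩

end Pool.Agent.MWS.H92
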