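import Pool.Agent.MWS.StmtsB

/-!
# Row FRE of squad MWS (MP_23468a_al): the free exchanges
-/

set_option autoImplicit false

namespace Pool.Agent.MWS.H92

open Pool.Agent.Helper14_MV Pool.Agent.Helper2_MV Pool.Agent.MVO Pool.Agent.MWL Pool.Agent.MWS

variable {β : FIC}

/-- insertion of a letter between two occurrences of it -/
theorem ins (hI : Itr β) {W1 W2 : List ℕ} (P Q w w' : List ℕ) (z : ℕ)
    (e1 : W1 = P ++ z :: (w ++ (w' ++ z :: Q))) (e2 : W2 = P ++ z :: (w ++ z :: (w' ++ z :: Q)))
    (h : ∀ c, c ∈ w ∨ c ∈ w' → 2 ≤ W1.count c) : RR β W1 W2 := by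
  subst e1
  subst e2
  exact hI P w w' Q z h

theorem xyxy (hA : ApI β) (x y : ℕ) (P Q : List ℕ) :
    RR β (P ++ x :: y :: x :: y :: Q) (P ++ y :: x :: y :: x :: Q) := by
  have h1 := (RR.refl (β := β) P).append
    (((hA.ic).sub (fun c => if c = 0 then [x] else [y])).append (RR.refl (β := β) Q))
  simpa using h1

theorem tr {a b c : List ℕ} (h1 : RR β a b) (h2 : RR β b c) : RR β a c := β.trans h1 h2

theorem core (hA : ApI β) (hI : Itr β) (p q A D : List ℕ) (x y : ℕ)
    (H : ∀ c, (c ∈ A ∨ c = x ∨ c = y ∨ c ∈ D) → 2 ≤ (p ++ (A ++ x :: y :: (D ++ q))).count c)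
    (h4 : (x ∈ D ∧ y ∈ D) ∨ (x ∈ A ∧ y ∈ A) ∨ (x ∈ A ∧ x ∈ D) ∨ (y ∈ A ∧ y ∈ D)) :
    RR β (p ++ (A ++ x :: y :: (D ++ q))) (p ++ (A ++ y :: x :: (D ++ q))) := by
  rcases h4 with ⟨h1, h2⟩ | ⟨h1, h2⟩ | ⟨h1, h2⟩ | ⟨h1, h2⟩
  · obtain ⟨D1, D2, hD⟩ := List.append_of_mem h1
    obtain ⟨E1, E2, hE⟩ := List.append_of_mem h2
    have mD : ∀ c, c ∈ D1 → c ∈ D := fun c hc => by rw [hD]; simp [hc]
    have mE : ∀ c, c ∈ E1 → c ∈ D := fun c hc => by rw [hE]; simp [hc]
    have s1 : RR β (p ++ (A ++ x :: y :: (D ++ q))) (p ++ (A ++ x :: y :: x :: (D ++ q))) := by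
      refine ins hI (p ++ A) (D2 ++ q) [y] D1 x (by rw [hD]; simp) (by rw [hD]; simp) ?_
      intro c hc
      refine H c ?_
      rcases hc with hc | hc
      · rw [List.mem_singleton] at hc
        exact Or.inr (Or.inr (Or.inl hc))
      · exact Or.inr (Or.inr (Or.inr (mD c hc)))
    have s2 : RR β (p ++ (A ++ x :: y :: x :: (D ++ q)))
        (p ++ (A ++ x :: y :: x :: y :: (D ++ q))) := by
      refine ins hI (p ++ (A ++ [x])) (E2 ++ q) [x] E1 y (by rw [hE]; simp) (by rw [hE]; simp) ?_
      intro c hc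
      have h3 := H c (by
        rcases hc with hc | hc
        · rw [List.mem_singleton] at hc
          exact Or.inr (Or.inl hc)
        · exact Or.inr (Or.inr (Or.inr (mE c hc))))
      simp only [List.count_append, List.count_cons] at h3 ⊢
      omega
    have s3 : RR β (p ++ (A ++ x :: y :: x :: y :: (D ++ q)))
        (p ++ (A ++ y :: x :: y :: x :: (D ++ q))) := by
      have := xyxy hA x y (p ++ A) (D ++ q)
      simpa using this
    have s4 : RR β (p ++ (A ++ y :: x :: x :: (D ++ q)))
        (p ++ (A ++ y :: x :: y :: x :: (D ++ q))) := by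
      refine ins hI (p ++ A) (E2 ++ q) [x] (x :: E1) y (by rw [hE]; simp) (by rw [hE]; simp) ?_
      intro c hc
      have h3 := H c (by
        rcases hc with hc | hc
        · rw [List.mem_singleton] at hc
          exact Or.inr (Or.inl hc)
        · rcases List.mem_cons.1 hc with hc | hc
          · exact Or.inr (Or.inl hc)
          · exact Or.inr (Or.inr (Or.inr (mE c hc))))
      simp only [List.count_append, List.count_cons] at h3 ⊢
      omega
    have s5 : RR β (p ++ (A ++ y :: x :: (D ++ q))) (p ++ (A ++ y :: x :: x :: (D ++ q))) := by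
      refine ins hI (p ++ (A ++ [y])) (D2 ++ q) [] D1 x (by rw [hD]; simp) (by rw [hD]; simp) ?_
      intro c hc
      have h3 := H c (by
        rcases hc with hc | hc
        · simp at hc
        · exact Or.inr (Or.inr (Or.inr (mD c hc))))
      simp only [List.count_append, List.count_cons] at h3 ⊢
      omega
    exact tr s1 (tr s2 (tr s3 (tr s4.symm s5.symm)))
  · obtain ⟨A1, A2, hA1⟩ := List.append_of_mem h1
    obtain ⟨F1, F2, hF⟩ := List.append_of_mem h2
    have mA : ∀ c, c ∈ A2 → c ∈ A := fun c hc => by rw [hA1]; simp [hc]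
    have mF : ∀ c, c ∈ F2 → c ∈ A := fun c hc => by rw [hF]; simp [hc]
    have s1 : RR β (p ++ (A ++ x :: y :: (D ++ q))) (p ++ (A ++ y :: x :: y :: (D ++ q))) := by
      refine ins hI (p ++ F1) (D ++ q) F2 [x] y (by rw [hF]; simp) (by rw [hF]; simp) ?_
      intro c hc
      refine H c ?_
      rcases hc with hc | hc
      · exact Or.inl (mF c hc)
      · rw [List.mem_singleton] at hc
        exact Or.inr (Or.inl hc)
    have s2 : RR β (p ++ (A ++ y :: x :: y :: (D ++ q)))
        (p ++ (A ++ x :: y :: x :: y :: (D ++ q))) := by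
      refine ins hI (p ++ A1) (y :: (D ++ q)) A2 [y] x (by rw [hA1]; simp) (by rw [hA1]; simp) ?_
      intro c hc
      have h3 := H c (by
        rcases hc with hc | hc
        · exact Or.inl (mA c hc)
        · rw [List.mem_singleton] at hc
          exact Or.inr (Or.inr (Or.inl hc)))
      simp only [List.count_append, List.count_cons] at h3 ⊢
      omega
    have s3 : RR β (p ++ (A ++ x :: y :: x :: y :: (D ++ q)))
        (p ++ (A ++ y :: x :: y :: x :: (D ++ q))) := by
      have := xyxy hA x y (p ++ A) (D ++ q)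
      simpa using this
    have s4 : RR β (p ++ (A ++ x :: y :: x :: (D ++ q)))
        (p ++ (A ++ y :: x :: y :: x :: (D ++ q))) := by
      refine ins hI (p ++ F1) (x :: (D ++ q)) F2 [x] y (by rw [hF]; simp) (by rw [hF]; simp) ?_
      intro c hc
      have h3 := H c (by
        rcases hc with hc | hc
        · exact Or.inl (mF c hc)
        · rw [List.mem_singleton] at hc
          exact Or.inr (Or.inl hc))
      simp only [List.count_append, List.count_cons] at h3 ⊢
      omega
    have s5 : RR β (p ++ (A ++ y :: x :: (D ++ q))) (p ++ (A ++ x :: y :: x :: (D ++ q))) := by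
      refine ins hI (p ++ A1) (D ++ q) A2 [y] x (by rw [hA1]; simp) (by rw [hA1]; simp) ?_
      intro c hc
      have h3 := H c (by
        rcases hc with hc | hc
        · exact Or.inl (mA c hc)
        · rw [List.mem_singleton] at hc
          exact Or.inr (Or.inr (Or.inl hc)))
      simp only [List.count_append, List.count_cons] at h3 ⊢
      omega
    exact tr s1 (tr s2 (tr s3 (tr s4.symm s5.symm)))
  · obtain ⟨A1, A2, hA1⟩ := List.append_of_mem h1
    obtain ⟨D1, D2, hD⟩ := List.append_of_mem h2
    have mA : ∀ c, c ∈ A2 → c ∈ A := fun c hc => by rw [hA1]; simp [hc]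
    have mD : ∀ c, c ∈ D1 → c ∈ D := fun c hc => by rw [hD]; simp [hc]
    have hcnt : ∀ c, (c ∈ A ∨ c = x ∨ c = y ∨ c ∈ D) → 2 ≤ (p ++ (A ++ y :: (D ++ q))).count c := by
      intro c hc
      have h3 := H c hc
      rw [hA1, hD] at h3 ⊢
      simp only [List.count_append, List.count_cons] at h3 ⊢
      by_cases hx : x = c
      · subst hx
        simp only [beq_self_eq_true, if_true] at h3 ⊢
        omega
      · have hx' : (x == c) = false := by simpa using hx
        simp only [hx', Bool.false_eq_true, if_false] at h3 ⊢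
        omega
    have s1 : RR β (p ++ (A ++ y :: (D ++ q))) (p ++ (A ++ x :: y :: (D ++ q))) := by
      refine ins hI (p ++ A1) (D2 ++ q) A2 (y :: D1) x (by rw [hA1, hD]; simp)
        (by rw [hA1, hD]; simp) ?_
      intro c hc
      refine hcnt c ?_
      rcases hc with hc | hc
      · exact Or.inl (mA c hc)
      · rcases List.mem_cons.1 hc with hc | hc
        · exact Or.inr (Or.inr (Or.inl hc))
        · exact Or.inr (Or.inr (Or.inr (mD c hc)))
    have s2 : RR β (p ++ (A ++ y :: (D ++ q))) (p ++ (A ++ y :: x :: (D ++ q))) := by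
      refine ins hI (p ++ A1) (D2 ++ q) (A2 ++ [y]) D1 x (by rw [hA1, hD]; simp)
        (by rw [hA1, hD]; simp) ?_
      intro c hc
      refine hcnt c ?_
      rcases hc with hc | hc
      · rcases List.mem_append.1 hc with hc | hc
        · exact Or.inl (mA c hc)
        · rw [List.mem_singleton] at hc
          exact Or.inr (Or.inr (Or.inl hc))
      · exact Or.inr (Or.inr (Or.inr (mD c hc)))
    exact tr s1.symm s2
  · obtain ⟨F1, F2, hF⟩ := List.append_of_mem h1
    obtain ⟨E1, E2, hE⟩ := List.append_of_mem h2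
    have mF : ∀ c, c ∈ F2 → c ∈ A := fun c hc => by rw [hF]; simp [hc]
    have mE : ∀ c, c ∈ E1 → c ∈ D := fun c hc => by rw [hE]; simp [hc]
    have hcnt : ∀ c, (c ∈ A ∨ c = x ∨ c = y ∨ c ∈ D) → 2 ≤ (p ++ (A ++ x :: (D ++ q))).count c := by
      intro c hc
      have h3 := H c hc
      rw [hF, hE] at h3 ⊢
      simp only [List.count_append, List.count_cons] at h3 ⊢
      by_cases hx : y = c
      · subst hx
        simp only [beq_self_eq_true, if_true] at h3 ⊢
        omega
      · have hx' : (y == c) = false := by simpa using hx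
        simp only [hx', Bool.false_eq_true, if_false] at h3 ⊢
        omega
    have s1 : RR β (p ++ (A ++ x :: (D ++ q))) (p ++ (A ++ x :: y :: (D ++ q))) := by
      refine ins hI (p ++ F1) (E2 ++ q) (F2 ++ [x]) E1 y (by rw [hF, hE]; simp)
        (by rw [hF, hE]; simp) ?_
      intro c hc
      refine hcnt c ?_
      rcases hc with hc | hc
      · rcases List.mem_append.1 hc with hc | hc
        · exact Or.inl (mF c hc)
        · rw [List.mem_singleton] at hc
          exact Or.inr (Or.inl hc)
      · exact Or.inr (Or.inr (Or.inr (mE c hc)))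
    have s2 : RR β (p ++ (A ++ x :: (D ++ q))) (p ++ (A ++ y :: x :: (D ++ q))) := by
      refine ins hI (p ++ F1) (E2 ++ q) F2 (x :: E1) y (by rw [hF, hE]; simp)
        (by rw [hF, hE]; simp) ?_
      intro c hc
      refine hcnt c ?_
      rcases hc with hc | hc
      · exact Or.inl (mF c hc)
      · rcases List.mem_cons.1 hc with hc | hc
        · exact Or.inr (Or.inl hc)
        · exact Or.inr (Or.inr (Or.inr (mE c hc)))
    exact tr s1.symm s2

/-- **Row FRE** -/
theorem fre : FreStmt := by
  intro β hA hI k C hC i hi A D x y hCi _ h4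
  have e1 : asm k C = pre C i ++ (A ++ x :: y :: (D ++ suf C i (k - i))) := by
    rw [asm_split hi, hCi]
    simp
  have e2 : asm k (Function.update C i (A ++ y :: x :: D)) =
      pre C i ++ (A ++ y :: x :: (D ++ suf C i (k - i))) := by
    rw [asm_update hi]
    simp
  rw [e1, e2]
  refine core hA hI _ _ A D x y ?_ h4
  intro c hc
  have hc' : c ∈ C i := by
    rw [hCi]
    simp only [List.mem_append, List.mem_cons]
    tauto
  rw [← e1, count_asm (hC.ok i hi c hc')]
  exact hC.ml i hi c hc'

end Pool.Agent.MWS.H92
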